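import Mathlib

/-!
Arithmetic of Hecke returns and reflections at `(z + b) / d`, `d` a power of a prime.
-/

set_option autoImplicit false

namespace Pool.Agent.D0H35.SN2

/-- a negative discriminant is at most `-3` -/
theorem disc_le {v1 v2 v3 : ℤ} (h : v2 ^ 2 - 4 * v1 * v3 < 0) : v2 ^ 2 - 4 * v1 * v3 ≤ -3 := by
  rcases Int.even_or_odd v2 with ⟨m, hm⟩ | ⟨m, hm⟩
  · have e : v2 ^ 2 - 4 * v1 * v3 = 4 * (m ^ 2 - v1 * v3) := by rw [hm]; ring
    rw [e] at h ⊢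
    omega
  · have e : v2 ^ 2 - 4 * v1 * v3 = 4 * (m ^ 2 + m - v1 * v3) + 1 := by rw [hm]; ring
    rw [e] at h ⊢
    omega

/-- powers of `p` and numbers prime to `p` -/
theorem dvd_of_dvd {p : ℕ} (hp : p.Prime) {d : ℤ} (hd : d = p ∨ d = (p : ℤ) ^ 2) {j : ℕ} {k v : ℤ}
    (hv : ¬ (p : ℤ) ∣ v) (h : d ^ j ∣ k * v) : d ^ j ∣ k := by
  have hpp : Prime (p : ℤ) := Nat.prime_iff_prime_int.1 hp
  have h1 : IsCoprime (p : ℤ) v := (Prime.coprime_iff_not_dvd hpp).2 hv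
  have h2 : IsCoprime d v := by
    rcases hd with rfl | rfl
    · exact h1
    · exact h1.pow_left
  exact (h2.pow_left).dvd_of_dvd_mul_right h

/-- an integral matrix of small determinant whose pull back is a multiple of the form is scalar -/
theorem hol {p : ℕ} (hp : p.Prime) {d b : ℤ} (hd : d = p ∨ d = (p : ℤ) ^ 2) {v1 v2 v3 : ℤ}
    (hneg : v2 ^ 2 - 4 * v1 * v3 < 0) (hv : ¬ (p : ℤ) ∣ v1 * b ^ 2 - v2 * b + v3)
    {A B C D k : ℤ} (hn' : 4 * (A * D - B * C) < 3 * (p : ℤ) ^ 2)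
    (h1 : C = k * v1) (h2 : (C * b + D * d) - (d * A - b * C) = k * v2)
    (h3 : -(d * (A * b + B * d) - b * (C * b + D * d)) = k * v3) : B = 0 ∧ C = 0 ∧ A = D := by
  have hp0 : (0 : ℤ) < p := by exact_mod_cast hp.pos
  have hp1 : (1 : ℤ) ≤ p := by omega
  have hd0 : 0 < d := by rcases hd with rfl | rfl <;> positivity
  have hdp : (p : ℤ) ^ 2 ≤ d ^ 2 := by
    rcases hd with rfl | rfl
    · exact le_rfl
    · nlinarith [sq_nonneg ((p : ℤ) ^ 2 - p), pow_pos hp0 3]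
  have e1 : d ^ 2 * B = -(k * (v1 * b ^ 2 - v2 * b + v3)) := by
    linear_combination (-b ^ 2) * h1 + b * h2 - h3
  have e2 : d ^ 2 ∣ k * (v1 * b ^ 2 - v2 * b + v3) := ⟨-B, by linarith⟩
  obtain ⟨k', hk'⟩ := dvd_of_dvd hp hd hv e2
  have hd2 : d ^ 2 ≠ 0 := by positivity
  have eB : B = -(k' * (v1 * b ^ 2 - v2 * b + v3)) := by
    apply mul_left_cancel₀ hd2
    rw [e1, hk']; ring
  have eD : D - A = d * k' * (v2 - 2 * b * v1) := by
    apply mul_left_cancel₀ hd0.ne'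
    rw [h1, hk'] at h2
    linear_combination h2
  have eC : C = d ^ 2 * k' * v1 := by rw [h1, hk']
  have key : (A + D) ^ 2 - 4 * (A * D - B * C) = d ^ 2 * k' ^ 2 * (v2 ^ 2 - 4 * v1 * v3) := by
    have : (A + D) ^ 2 - 4 * (A * D - B * C) = (D - A) ^ 2 + 4 * B * C := by ring
    rw [this, eD, eB, eC]
    ring
  have hk0 : k' = 0 := by
    by_contra hne
    have h4 : (1 : ℤ) ≤ k' ^ 2 := by
      have := Int.one_le_abs hne
      rw [← sq_abs]; nlinarith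
    have h5 := disc_le hneg
    have h6 : (p : ℤ) ^ 2 ≤ d ^ 2 * k' ^ 2 := by nlinarith [sq_nonneg (p : ℤ)]
    have h7 : d ^ 2 * k' ^ 2 * (v2 ^ 2 - 4 * v1 * v3) ≤ -3 * (p : ℤ) ^ 2 := by nlinarith
    nlinarith [sq_nonneg (A + D)]
  rw [hk0] at eB eC eD
  refine ⟨by simpa using eB, by simpa using eC, ?_⟩
  have : D - A = 0 := by simpa using eD
  omega

/-- reflections at `(z + b) / d` -/
theorem refl {p : ℕ} (hp : p.Prime) {d b : ℤ} (hd : d = p ∨ d = (p : ℤ) ^ 2)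
    {A B C k u1 u2 u3 : ℤ} (hn : 0 < A ^ 2 + B * C) (hn' : A ^ 2 + B * C < (p : ℤ) ^ 2)
    (h1 : C = k * u1) (h2 : d * A - b * C = k * u2)
    (h3 : d ^ 2 * B + 2 * b * d * A - b ^ 2 * C = k * u3) :
    (p : ℤ) ∣ u3 - 2 * b * u2 - b ^ 2 * u1 ∧
      ((p : ℤ) ∣ u2 + b * u1 ∨ ∃ k', k' ≠ 0 ∧ A ^ 2 + B * C = k' ^ 2 * (u2 ^ 2 + u3 * u1)) := by
  have hp0 : (0 : ℤ) < p := by exact_mod_cast hp.pos
  have hd0 : 0 < d := by rcases hd with rfl | rfl <;> positivity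
  have hdp : (p : ℤ) ^ 2 ≤ d ^ 2 := by
    rcases hd with rfl | rfl
    · exact le_rfl
    · nlinarith [sq_nonneg ((p : ℤ) ^ 2 - p), pow_pos hp0 3]
  have hdet : d ^ 2 * (A ^ 2 + B * C) = k ^ 2 * (u2 ^ 2 + u3 * u1) := by
    have : k ^ 2 * (u2 ^ 2 + u3 * u1) = (k * u2) ^ 2 + (k * u3) * (k * u1) := by ring
    rw [this, ← h1, ← h2, ← h3]
    ring
  have hd2 : 0 < d ^ 2 := by positivity
  have hlhs : 0 < d ^ 2 * (A ^ 2 + B * C) := by positivity
  have hΔ : 0 < u2 ^ 2 + u3 * u1 := by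
    rw [hdet] at hlhs
    by_contra hcon
    rw [not_lt] at hcon
    have := mul_nonpos_of_nonneg_of_nonpos (sq_nonneg k) hcon
    linarith
  have hk : k ≠ 0 := by
    rintro rfl
    rw [hdet] at hlhs
    simp at hlhs
  constructor
  · by_contra hcon
    have e1 : d ^ 2 * B = k * (u3 - 2 * b * u2 - b ^ 2 * u1) := by
      linear_combination h3 - 2 * b * h2 - b ^ 2 * h1
    obtain ⟨k', hk'⟩ := dvd_of_dvd hp hd hcon (⟨B, e1.symm⟩ : d ^ 2 ∣ _)
    have hk0 : k' ≠ 0 := by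
      rintro rfl
      exact hk (by simpa using hk')
    have h4 : (1 : ℤ) ≤ k' ^ 2 := by
      have := Int.one_le_abs hk0
      rw [← sq_abs]; nlinarith
    have e2 : A ^ 2 + B * C = d ^ 2 * (k' ^ 2 * (u2 ^ 2 + u3 * u1)) := by
      apply mul_left_cancel₀ hd2.ne'
      rw [hdet, hk']
      ring
    have h5 : 1 ≤ k' ^ 2 * (u2 ^ 2 + u3 * u1) := by nlinarith
    nlinarith
  · by_cases hcon : (p : ℤ) ∣ u2 + b * u1
    · exact Or.inl hcon
    · right
      have e1 : d * A = k * (u2 + b * u1) := by linear_combination h2 + b * h1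
      obtain ⟨k', hk'⟩ := dvd_of_dvd hp hd (j := 1) hcon (by rw [pow_one]; exact ⟨A, e1.symm⟩)
      rw [pow_one] at hk'
      refine ⟨k', ?_, ?_⟩
      · rintro rfl
        exact hk (by simpa using hk')
      · apply mul_left_cancel₀ hd2.ne'
        rw [hdet, hk']
        ring

/-- two directions which are double zeros of reflections are zeros of the form of their product -/
theorem double {p : ℕ} (hp : p.Prime) {e e' : ℤ} (hee : ¬ (p : ℤ) ∣ e - e')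
    {u1 u2 u3 w1 w2 w3 k v1 v2 v3 : ℤ} (hu : ¬ (p : ℤ) ∣ u1) (hw : ¬ (p : ℤ) ∣ w1)
    (a1 : (p : ℤ) ∣ u2 + e * u1) (a2 : (p : ℤ) ∣ u3 - 2 * e * u2 - e ^ 2 * u1)
    (b1 : (p : ℤ) ∣ w2 + e' * w1) (b2 : (p : ℤ) ∣ w3 - 2 * e' * w2 - e' ^ 2 * w1)
    (h1 : u1 * w2 - u2 * w1 = k * v1) (h2 : u1 * w3 - u3 * w1 = k * v2)
    (h3 : u3 * w2 - u2 * w3 = k * v3) : (p : ℤ) ∣ v1 * e ^ 2 - v2 * e + v3 := by
  have hpp : Prime (p : ℤ) := Nat.prime_iff_prime_int.1 hp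
  obtain ⟨s1, hs1⟩ := a1
  obtain ⟨s2, hs2⟩ := a2
  obtain ⟨t1, ht1⟩ := b1
  obtain ⟨t2, ht2⟩ := b2
  have eu2 : u2 = p * s1 - e * u1 := by linarith
  have eu3 : u3 = p * (s2 + 2 * e * s1) - e ^ 2 * u1 := by
    rw [eu2] at hs2; linear_combination hs2
  have ew2 : w2 = p * t1 - e' * w1 := by linarith
  have ew3 : w3 = p * (t2 + 2 * e' * t1) - e' ^ 2 * w1 := by
    rw [ew2] at ht2; linear_combination ht2
  have hk : ¬ (p : ℤ) ∣ k := by
    intro hk
    have h4 : (p : ℤ) ∣ u1 * w2 - u2 * w1 := by rw [h1]; exact hk.mul_right _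
    have h5 : u1 * w2 - u2 * w1 = (e - e') * (u1 * w1) + p * (u1 * t1 - s1 * w1) := by
      rw [eu2, ew2]; ring
    rw [h5] at h4
    have h6 : (p : ℤ) ∣ (e - e') * (u1 * w1) := (dvd_add_left (dvd_mul_right _ _)).1 h4
    rcases hpp.dvd_or_dvd h6 with h | h
    · exact hee h
    · rcases hpp.dvd_or_dvd h with h | h
      · exact hu h
      · exact hw h
  have h7 : (p : ℤ) ∣ k * (v1 * e ^ 2 - v2 * e + v3) := by
    have h8 : k * (v1 * e ^ 2 - v2 * e + v3) =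
        (u1 * w2 - u2 * w1) * e ^ 2 - (u1 * w3 - u3 * w1) * e + (u3 * w2 - u2 * w3) := by
      rw [h1, h2, h3]; ring
    rw [h8, eu2, eu3, ew2, ew3]
    refine ⟨(u1 * t1 - s1 * w1) * e ^ 2 - (u1 * (t2 + 2 * e' * t1) - (s2 + 2 * e * s1) * w1) * e +
      ((s2 + 2 * e * s1) * (p * t1 - e' * w1) - e ^ 2 * u1 * t1 -
        s1 * (p * (t2 + 2 * e' * t1) - e' ^ 2 * w1) + e * u1 * (t2 + 2 * e' * t1)), ?_⟩
    ring
  rcases hpp.dvd_or_dvd h7 with h | h
  · exact absurd h hk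
  · exact h

/-- a form which is not zero modulo `p` has at most two zeros -/
theorem card_zero {p : ℕ} (hp : p.Prime) {v1 v2 v3 : ℤ}
    (h : ¬ ((p : ℤ) ∣ v1 ∧ (p : ℤ) ∣ v2 ∧ (p : ℤ) ∣ v3)) :
    ((Finset.range p).filter fun e : ℕ =>
      (p : ℤ) ∣ v1 * (e : ℤ) ^ 2 - v2 * e + v3).card ≤ 2 := by
  classical
  have : Fact p.Prime := ⟨hp⟩
  obtain ⟨w1, hw1⟩ : ∃ w : ZMod p, (v1 : ZMod p) = w := ⟨_, rfl⟩
  obtain ⟨w2, hw2⟩ : ∃ w : ZMod p, (v2 : ZMod p) = w := ⟨_, rfl⟩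
  obtain ⟨w3, hw3⟩ : ∃ w : ZMod p, (v3 : ZMod p) = w := ⟨_, rfl⟩
  set f : Polynomial (ZMod p) := Polynomial.C w1 * Polynomial.X ^ 2 +
    Polynomial.C (-w2) * Polynomial.X + Polynomial.C w3 with hf
  have hf0 : f ≠ 0 := by
    intro h0
    have c0 : w3 = 0 := by
      have := congrArg (fun g => Polynomial.coeff g 0) h0
      simpa [hf, Polynomial.coeff_X, Polynomial.coeff_C] using this
    have c1 : w2 = 0 := by
      have := congrArg (fun g => Polynomial.coeff g 1) h0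
      simpa [hf, Polynomial.coeff_X, Polynomial.coeff_C, Polynomial.coeff_X_pow] using this
    have c2 : w1 = 0 := by
      have := congrArg (fun g => Polynomial.coeff g 2) h0
      simpa [hf, Polynomial.coeff_X, Polynomial.coeff_C, Polynomial.coeff_X_pow] using this
    apply h
    rw [← hw1] at c2
    rw [← hw2] at c1
    rw [← hw3] at c0
    exact ⟨(ZMod.intCast_zmod_eq_zero_iff_dvd _ p).1 c2,
      (ZMod.intCast_zmod_eq_zero_iff_dvd _ p).1 c1,
      (ZMod.intCast_zmod_eq_zero_iff_dvd _ p).1 c0⟩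
  have hdeg : f.natDegree ≤ 2 := by
    rw [hf]
    compute_degree
  have hroots : f.roots.toFinset.card ≤ 2 :=
    (Multiset.toFinset_card_le _).trans ((Polynomial.card_roots' f).trans hdeg)
  refine le_trans (Finset.card_le_card_of_injOn (fun e : ℕ => (e : ZMod p)) ?_ ?_) hroots
  · intro e he
    have he' := Finset.mem_filter.1 (Finset.mem_coe.1 he)
    have h1 := he'.2
    rw [Finset.mem_coe, Multiset.mem_toFinset, Polynomial.mem_roots hf0, Polynomial.IsRoot.def]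
    have h2 := (ZMod.intCast_zmod_eq_zero_iff_dvd _ p).2 h1
    push_cast at h2
    rw [hw1, hw2, hw3] at h2
    rw [hf]
    simp only [Polynomial.eval_add, Polynomial.eval_mul, Polynomial.eval_C, Polynomial.eval_pow,
      Polynomial.eval_X]
    rw [← h2]
    ring
  · intro a ha b hb hab
    have ha' := Finset.mem_range.1 (Finset.mem_filter.1 (Finset.mem_coe.1 ha)).1
    have hb' := Finset.mem_range.1 (Finset.mem_filter.1 (Finset.mem_coe.1 hb)).1
    have h1 := (ZMod.natCast_eq_natCast_iff' a b p).1 hab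
    rwa [Nat.mod_eq_of_lt ha', Nat.mod_eq_of_lt hb'] at h1

end Pool.Agent.D0H35.SN2
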