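import Mathlib

/-!
Reflections in arithmetic geodesics are isometries.
-/

set_option autoImplicit false

open UpperHalfPlane ComplexConjugate

namespace Pool.Agent.D0H35.SN2

theorem refl_den {A B C : ℝ} (hn : 0 < A ^ 2 + B * C) (u : ℍ) : (C : ℂ) * conj (u : ℂ) - A ≠ 0 := by
  intro h
  have h1 := congrArg Complex.im h
  have h2 := congrArg Complex.re h
  simp at h1 h2
  have hu := u.im_pos
  have hC : C = 0 := by
    rcases h1 with h1 | h1
    · exact h1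
    · exact absurd h1 hu.ne'
  subst hC
  simp at h2
  rw [h2] at hn
  simp at hn

theorem refl_im {A B C : ℝ} (hn : 0 < A ^ 2 + B * C) {u u' : ℂ} (hu : (C : ℂ) * conj u - A ≠ 0)
    (h : u' * (C * conj u - A) = A * conj u + B) :
    u'.im * ‖(C : ℂ) * conj u - A‖ ^ 2 = (A ^ 2 + B * C) * u.im := by
  have h1 : u' * ((C * conj u - A) * conj (C * conj u - A)) =
      (A * conj u + B) * conj (C * conj u - A) := by
    rw [← mul_assoc, h]
  rw [Complex.mul_conj, Complex.normSq_eq_norm_sq] at h1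
  have h2 := congrArg Complex.im h1
  rw [Complex.mul_im] at h2
  simp only [Complex.ofReal_im, Complex.ofReal_re, mul_zero, zero_add] at h2
  rw [h2]
  simp
  ring

theorem refl_dist {A B C : ℝ} (hn : 0 < A ^ 2 + B * C) {u v u' v' : ℍ}
    (hu : (u' : ℂ) * (C * conj (u : ℂ) - A) = A * conj (u : ℂ) + B)
    (hv : (v' : ℂ) * (C * conj (v : ℂ) - A) = A * conj (v : ℂ) + B) :
    dist u' v' = dist u v := by
  have du := refl_den hn u
  have dv := refl_den hn v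
  have iu := refl_im hn du hu
  have iv := refl_im hn dv hv
  have hd : dist (u' : ℂ) v' * (‖(C : ℂ) * conj (u : ℂ) - A‖ * ‖(C : ℂ) * conj (v : ℂ) - A‖) =
      (A ^ 2 + B * C) * dist (u : ℂ) v := by
    rw [dist_eq_norm, dist_eq_norm, ← norm_mul, ← norm_mul]
    have e1 : ((u' : ℂ) - v') * ((C * conj (u : ℂ) - A) * (C * conj (v : ℂ) - A)) =
        -((A ^ 2 + B * C : ℝ) : ℂ) * conj ((u : ℂ) - v) := by
      push_cast
      rw [map_sub]
      linear_combination (C * conj (v : ℂ) - A) * hu - (C * conj (u : ℂ) - A) * hv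
    rw [e1, norm_mul, norm_neg, Complex.norm_conj, Complex.norm_real, Real.norm_of_nonneg hn.le]
  have pu : 0 < ‖(C : ℂ) * conj (u : ℂ) - A‖ := norm_pos_iff.2 du
  have pv : 0 < ‖(C : ℂ) * conj (v : ℂ) - A‖ := norm_pos_iff.2 dv
  have hcosh : Real.cosh (dist u' v') = Real.cosh (dist u v) := by
    rw [UpperHalfPlane.cosh_dist, UpperHalfPlane.cosh_dist]
    congr 1
    have h1 := u.im_pos
    have h2 := v.im_pos
    have h3 := u'.im_pos
    have h4 := v'.im_pos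
    set a := ‖(C : ℂ) * conj (u : ℂ) - A‖
    set b := ‖(C : ℂ) * conj (v : ℂ) - A‖
    set n := A ^ 2 + B * C
    have e1 : (u' : ℂ).im = u'.im := rfl
    have e2 : (v' : ℂ).im = v'.im := rfl
    have e3 : (u : ℂ).im = u.im := rfl
    have e4 : (v : ℂ).im = v.im := rfl
    rw [e1, e3] at iu
    rw [e2, e4] at iv
    have hd' : dist (u' : ℂ) v' = n * dist (u : ℂ) v / (a * b) := by
      rw [eq_div_iff (by positivity)]; exact hd
    have iu' : u'.im = n * u.im / a ^ 2 := by rw [eq_div_iff (by positivity)]; exact iu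
    have iv' : v'.im = n * v.im / b ^ 2 := by rw [eq_div_iff (by positivity)]; exact iv
    rw [hd', iu', iv']
    field_simp
  have h1 : |dist u' v'| = |dist u v| := by
    apply le_antisymm
    · exact Real.cosh_le_cosh.1 hcosh.le
    · exact Real.cosh_le_cosh.1 hcosh.ge
  rwa [abs_of_nonneg dist_nonneg, abs_of_nonneg dist_nonneg] at h1

/-- no reflection: far from the fixed geodesic -/
theorem geo {A B C : ℤ} (hn : 0 < A ^ 2 + B * C) {δ : ℝ} {w : ℍ}
    (h : ∀ w' : ℍ, (w' : ℂ) * (C * conj (w : ℂ) + ((-A : ℤ) : ℂ)) = A * conj (w : ℂ) + B →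
      δ ≤ dist w' w) {v : ℍ} (hv : C * ‖(v : ℂ)‖ ^ 2 - 2 * A * v.re - B = 0) :
    δ / 2 ≤ dist w v := by
  have hn' : 0 < (A : ℝ) ^ 2 + (B : ℝ) * (C : ℝ) := by exact_mod_cast hn
  have hden := refl_den hn' w
  have him : 0 < ((((A : ℝ) : ℂ) * conj (w : ℂ) + ((B : ℝ) : ℂ)) /
      (((C : ℝ) : ℂ) * conj (w : ℂ) - ((A : ℝ) : ℂ))).im := by
    have h1 := refl_im hn' hden (u' := (((A : ℝ) : ℂ) * conj (w : ℂ) + ((B : ℝ) : ℂ)) /
      (((C : ℝ) : ℂ) * conj (w : ℂ) - ((A : ℝ) : ℂ))) (by rw [div_mul_cancel₀ _ hden])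
    have h2 : 0 < ‖((C : ℝ) : ℂ) * conj (w : ℂ) - ((A : ℝ) : ℂ)‖ ^ 2 := by
      have := norm_pos_iff.2 hden
      positivity
    have h3 : 0 < ((A : ℝ) ^ 2 + (B : ℝ) * (C : ℝ)) * (w : ℂ).im := mul_pos hn' w.im_pos
    rw [← h1] at h3
    exact pos_of_mul_pos_left h3 h2.le
  set w' : ℍ := ⟨_, him⟩ with hw'
  have hw'c : (w' : ℂ) * (((C : ℝ) : ℂ) * conj (w : ℂ) - ((A : ℝ) : ℂ)) =
      ((A : ℝ) : ℂ) * conj (w : ℂ) + ((B : ℝ) : ℂ) := div_mul_cancel₀ _ hden
  have h1 := h w' (by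
    have := hw'c
    push_cast at this ⊢
    rw [← sub_eq_add_neg]
    exact this)
  have hvv : (v : ℂ) * (((C : ℝ) : ℂ) * conj (v : ℂ) - ((A : ℝ) : ℂ)) =
      ((A : ℝ) : ℂ) * conj (v : ℂ) + ((B : ℝ) : ℂ) := by
    have e1 : (v : ℂ) * conj (v : ℂ) = ((‖(v : ℂ)‖ ^ 2 : ℝ) : ℂ) := by
      rw [Complex.mul_conj, Complex.normSq_eq_norm_sq]
    have e2 : (v : ℂ) + conj (v : ℂ) = ((2 * v.re : ℝ) : ℂ) := by
      rw [Complex.add_conj]; rfl
    have e3 : ((C * ‖(v : ℂ)‖ ^ 2 - 2 * A * v.re - B : ℝ) : ℂ) = 0 := by rw [hv]; simp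
    push_cast at e1 e2 e3 ⊢
    linear_combination e3 + (C : ℂ) * e1 - (A : ℂ) * e2
  have h2 := refl_dist hn' hw'c hvv
  have h3 := dist_triangle w' v w
  rw [h2, dist_comm v w] at h3
  linarith

end Pool.Agent.D0H35.SN2
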