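import Pool.Agent.D0H35.SN.Main

/-!
Integral matrices of negative determinant which almost fix a point of the upper half plane.
-/

set_option autoImplicit false

open UpperHalfPlane

namespace Pool.Agent.D0H35.SN2

open Pool.Agent.N661.SN

/-- A reflection within `δ`. -/
theorem refl_of_dist {w w' : ℍ} {A B C D : ℤ} {δ : ℝ} (hδ : δ ≤ 1 / 4)
    (hn : A * D - B * C < 0)
    (h : (w' : ℂ) * (C * (starRingEnd ℂ) (w : ℂ) + D) = A * (starRingEnd ℂ) (w : ℂ) + B)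
    (hd : dist w' w < δ) :
    ‖((w : ℂ) - (w' : ℂ)) * (C * (starRingEnd ℂ) (w : ℂ) + D)‖ ^ 2 ≤
      8 * δ ^ 2 * ((-(A * D - B * C) : ℤ) : ℝ) * w.im ^ 2 := by
  have hd0 : 0 ≤ dist w' w := dist_nonneg
  have hδ0 : 0 < δ := hd0.trans_lt hd
  have hexp : Real.exp (dist w' w) - 1 ≤ 2 * δ := by
    have h1 := Real.abs_exp_sub_one_le (x := dist w' w) (by rw [abs_of_nonneg hd0]; linarith)
    rw [abs_of_nonneg hd0] at h1
    have := le_abs_self (Real.exp (dist w' w) - 1)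
    linarith
  have hwi := w.im_pos
  have hwi' := w'.im_pos
  have k1 : dist (w' : ℂ) (w : ℂ) ≤ w.im * (2 * δ) := by
    refine (UpperHalfPlane.dist_coe_le w' w).trans ?_
    gcongr
  have k2 : dist (w : ℂ) (w' : ℂ) ≤ w'.im * (2 * δ) := by
    refine (UpperHalfPlane.dist_coe_le w w').trans ?_
    rw [dist_comm w w']
    gcongr
  have k3 : w'.im ≤ 2 * w.im := by
    have h1 : |((w' : ℂ) - (w : ℂ)).im| ≤ dist (w' : ℂ) (w : ℂ) := by
      rw [dist_eq_norm]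
      exact Complex.abs_im_le_norm _
    have h2 := le_abs_self ((w' : ℂ) - (w : ℂ)).im
    simp only [Complex.sub_im, UpperHalfPlane.coe_im] at h1 h2
    nlinarith
  set v : ℂ := (starRingEnd ℂ) (w : ℂ) with hv
  have hvr : v.re = w.re := by rw [hv]; simp
  have hvi : v.im = - w.im := by rw [hv]; simp
  have e2 : ‖(C : ℂ) * v + D‖ ^ 2 * w'.im = ((-(A * D - B * C) : ℤ) : ℝ) * w.im := by
    have h1 : ((w' : ℂ) * (C * v + D)) * (starRingEnd ℂ) (C * v + D) =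
        (A * v + B) * (starRingEnd ℂ) (C * v + D) := by rw [h]
    rw [mul_assoc, Complex.mul_conj, Complex.normSq_eq_norm_sq] at h1
    have h2 := congrArg Complex.im h1
    rw [Complex.im_mul_ofReal] at h2
    rw [UpperHalfPlane.coe_im] at h2
    rw [mul_comm, h2]
    simp [hvr, hvi]
    ring
  rw [norm_mul, mul_pow]
  rw [dist_eq_norm] at k2
  have k4 : ‖(w : ℂ) - (w' : ℂ)‖ ^ 2 ≤ (w'.im * (2 * δ)) ^ 2 := by gcongr
  have hpos : (0 : ℝ) < ((-(A * D - B * C) : ℤ) : ℝ) := by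
    have : 0 < -(A * D - B * C) := by omega
    exact_mod_cast this
  calc ‖(w : ℂ) - (w' : ℂ)‖ ^ 2 * ‖(C : ℂ) * v + D‖ ^ 2
      ≤ (w'.im * (2 * δ)) ^ 2 * ‖(C : ℂ) * v + D‖ ^ 2 := by gcongr
    _ = 4 * δ ^ 2 * w'.im * (‖(C : ℂ) * v + D‖ ^ 2 * w'.im) := by ring
    _ = 4 * δ ^ 2 * w'.im * (((-(A * D - B * C) : ℤ) : ℝ) * w.im) := by rw [e2]
    _ ≤ 4 * δ ^ 2 * (2 * w.im) * (((-(A * D - B * C) : ℤ) : ℝ) * w.im) := by
        gcongr
    _ = _ := by ring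

/-- the linear form of a vector `(C, A, B)` -/
noncomputable def ell (C A B : ℤ) (z : ℂ) : ℝ := C * (z.re ^ 2 + z.im ^ 2) - 2 * A * z.re - B

/-- A reflection within `δ` has trace zero and its vector is almost orthogonal to the point. -/
theorem refl_vec {w w' : ℍ} {A B C D : ℤ} {δ ε S : ℝ} (hδ : δ ≤ 1 / 4) (hε : 0 < ε)
    (hδε : 8 * δ ^ 2 ≤ ε ^ 2) (hS : 0 ≤ S) (hεS : ε * S < 1)
    (hn : A * D - B * C < 0) (hnS : ((-(A * D - B * C) : ℤ) : ℝ) ≤ S ^ 2)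
    (h : (w' : ℂ) * (C * (starRingEnd ℂ) (w : ℂ) + D) = A * (starRingEnd ℂ) (w : ℂ) + B)
    (hd : dist w' w < δ) : D = -A ∧ |ell C A B w| ≤ ε * S * w.im := by
  have hwi := w.im_pos
  have h1 : ‖((w : ℂ) - (w' : ℂ)) * (C * (starRingEnd ℂ) (w : ℂ) + D)‖ ≤ ε * S * w.im := by
    refine le_of_sq_le_sq ?_ (by positivity)
    refine (refl_of_dist hδ hn h hd).trans ?_
    have h0 : (0 : ℝ) < ((-(A * D - B * C) : ℤ) : ℝ) := by
      have : 0 < -(A * D - B * C) := by omega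
      exact_mod_cast this
    calc 8 * δ ^ 2 * ((-(A * D - B * C) : ℤ) : ℝ) * w.im ^ 2 ≤ ε ^ 2 * S ^ 2 * w.im ^ 2 := by
          gcongr
      _ = _ := by ring
  have e1 : ((w : ℂ) - (w' : ℂ)) * (C * (starRingEnd ℂ) (w : ℂ) + D) =
      C * ((w : ℂ) * (starRingEnd ℂ) (w : ℂ)) + D * (w : ℂ) - A * (starRingEnd ℂ) (w : ℂ) - B := by
    rw [sub_mul, h]; ring
  rw [e1] at h1
  set X : ℂ := C * ((w : ℂ) * (starRingEnd ℂ) (w : ℂ)) + D * (w : ℂ) -
    A * (starRingEnd ℂ) (w : ℂ) - B with hX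
  have him : X.im = ((D + A : ℤ) : ℝ) * w.im := by
    rw [hX]
    simp
    ring
  have hre : X.re = C * ((w : ℂ).re ^ 2 + (w : ℂ).im ^ 2) + (D - A) * (w : ℂ).re - B := by
    rw [hX]
    simp
    ring
  have h2 : |((D + A : ℤ) : ℝ)| * w.im < 1 * w.im := by
    have h3 := (Complex.abs_im_le_norm X).trans h1
    rw [him, abs_mul, abs_of_pos hwi] at h3
    refine h3.trans_lt ?_
    exact mul_lt_mul_of_pos_right hεS hwi
  have h3 : D + A = 0 := int_zero (lt_of_mul_lt_mul_right h2 hwi.le)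
  have hD : D = -A := by omega
  refine ⟨hD, ?_⟩
  have h4 := (Complex.abs_re_le_norm X).trans h1
  have e2 : ell C A B w = X.re := by
    rw [hre, ell, hD]
    push_cast
    ring
  rw [e2]
  exact h4

/-- size of the vectors -/
theorem vec_size {C A B : ℤ} {z : ℂ} (hz : 0 < z.im) {ε S : ℝ} (hε : 0 < ε) (hε' : ε ≤ 1 / 2)
    (hS : 0 < S) (hn : ((A ^ 2 + B * C : ℤ) : ℝ) ≤ S ^ 2) (hl : |ell C A B z| ≤ ε * S * z.im) :
    ((A : ℝ) - C * z.re) ^ 2 + (C * z.im) ^ 2 ≤ (2 * S) ^ 2 := by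
  push_cast at hn
  set M2 : ℝ := ((A : ℝ) - C * z.re) ^ 2 + (C * z.im) ^ 2 with hM2
  have e1 : M2 = (A ^ 2 + B * C) + C * ell C A B z := by
    rw [hM2, ell]; ring
  have h0 : 0 ≤ M2 := by rw [hM2]; positivity
  set M := Real.sqrt M2 with hM
  have hMM : M ^ 2 = M2 := Real.sq_sqrt h0
  have hM0 : 0 ≤ M := Real.sqrt_nonneg _
  have h2 : |(C : ℝ)| * z.im ≤ M := by
    apply Real.le_sqrt_of_sq_le
    rw [mul_pow, sq_abs, hM2]
    nlinarith [sq_nonneg ((A : ℝ) - C * z.re)]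
  have h3 : C * ell C A B z ≤ ε * S * M := by
    calc C * ell C A B z ≤ |C * ell C A B z| := le_abs_self _
      _ = |(C : ℝ)| * |ell C A B z| := abs_mul _ _
      _ ≤ |(C : ℝ)| * (ε * S * z.im) := by gcongr
      _ = ε * S * (|(C : ℝ)| * z.im) := by ring
      _ ≤ ε * S * M := by gcongr
  have h4 : M ^ 2 ≤ S ^ 2 + ε * S * M := by rw [hMM, e1]; linarith
  have h5 : ε * S * M ≤ 1 / 2 * S * M := by gcongr
  have h6 : M ≤ 2 * S := by
    by_contra hcon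
    rw [not_le] at hcon
    nlinarith
  rw [← hMM]
  gcongr

/-- the product of two almost fixing reflections almost fixes the point -/
theorem cross {C A B C' A' B' : ℤ} {z : ℂ} (hz : 0 < z.im) {ε S : ℝ} (hε : 0 < ε)
    (hε' : ε ≤ 1 / 2) (hS : 0 < S) (hn : ((A ^ 2 + B * C : ℤ) : ℝ) ≤ S ^ 2)
    (hl : |ell C A B z| ≤ ε * S * z.im) (hn' : ((A' ^ 2 + B' * C' : ℤ) : ℝ) ≤ S ^ 2)
    (hl' : |ell C' A' B' z| ≤ ε * S * z.im) :
    ‖q (C * A' - A * C') (C * B' - B * C') (B * A' - A * B') z‖ ≤ 4 * ε * S ^ 2 * z.im := by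
  have h1 := vec_size hz hε hε' hS hn hl
  have h1' := vec_size hz hε hε' hS hn' hl'
  have nrm : ∀ C A : ℤ, ((A : ℝ) - C * z.re) ^ 2 + (C * z.im) ^ 2 ≤ (2 * S) ^ 2 →
      ‖(C : ℂ) * z - A‖ ≤ 2 * S := by
    intro C A h
    refine le_of_sq_le_sq ?_ (by positivity)
    rw [← Complex.normSq_eq_norm_sq, Complex.normSq_apply]
    simp
    nlinarith
  have e : q (C * A' - A * C') (C * B' - B * C') (B * A' - A * B') z =
      (ell C A B z : ℂ) * ((C' : ℂ) * z - A') - (ell C' A' B' z : ℂ) * ((C : ℂ) * z - A) := by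
    apply Complex.ext
    · simp [q, ell, pow_two]
      ring
    · simp [q, ell, pow_two]
      ring
  rw [e]
  have k1 : ‖(ell C A B z : ℂ)‖ ≤ ε * S * z.im := by
    rw [Complex.norm_real]; exact hl
  have k2 : ‖(ell C' A' B' z : ℂ)‖ ≤ ε * S * z.im := by
    rw [Complex.norm_real]; exact hl'
  calc _ ≤ ‖(ell C A B z : ℂ) * ((C' : ℂ) * z - A')‖ + ‖(ell C' A' B' z : ℂ) * ((C : ℂ) * z - A)‖ :=
        norm_sub_le _ _
    _ ≤ (ε * S * z.im) * (2 * S) + (ε * S * z.im) * (2 * S) := by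
        rw [norm_mul, norm_mul]
        gcongr
        · exact nrm C' A' h1'
        · exact nrm C A h1
    _ = _ := by ring

end Pool.Agent.D0H35.SN2
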