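import Pool.Agent.D0H35.SN.Form
import Pool.Agent.D0H35.SN2.Refl
import Pool.Agent.D0H35.SN2.Ar

/-!
The choice of the direction.
-/

set_option autoImplicit false

open UpperHalfPlane

namespace Pool.Agent.D0H35.SN2

open Pool.Agent.N661.SN

theorem card_small {p : ℕ} (hp : p.Prime) (hp2 : p ≠ 2) {R N : ℝ} (hR : 1 ≤ R) (hN : 1 ≤ N)
    {z : ℂ} (hz : 1 / R ≤ z.im) {η : ℝ} (hη : η < 1 / 2) (E : Finset ℕ) (hE : ∀ e ∈ E, e < p)
    (h : ∀ e ∈ E, ∃ C A B : ℤ, ¬ ((p : ℤ) ∣ C ∧ (p : ℤ) ∣ A ∧ (p : ℤ) ∣ B) ∧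
      ((A : ℝ) - C * z.re) ^ 2 + (C * z.im) ^ 2 ≤ 4 * N ∧ |ell C A B z| ≤ η ∧
      (p : ℤ) ∣ B - 2 * e * A - e ^ 2 * C) :
    (E.card : ℝ) ≤ 60 * (R * N) := by
  classical
  have hR0 : 0 < R := by linarith
  have hpp : Prime (p : ℤ) := Nat.prime_iff_prime_int.1 hp
  have hp2' : ¬ (p : ℤ) ∣ 2 := by
    intro h
    have h1 : p ∣ 2 := by exact_mod_cast h
    exact hp2 ((Nat.prime_dvd_prime_iff_eq hp Nat.prime_two).1 h1)
  choose! C A B hprim hsize hell hdvd using h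
  set s := Real.sqrt N with hs
  have hss : s ^ 2 = N := Real.sq_sqrt (by linarith)
  have hs1 : 1 ≤ s := by rw [hs]; exact Real.one_le_sqrt.2 hN
  have hs0 : 0 < s := by linarith
  set P : Finset (ℤ × ℤ) := Finset.Icc (-⌊2 * (R * s)⌋) ⌊2 * (R * s)⌋ ×ˢ
    Finset.Icc (-⌊2 * s⌋) (⌊2 * s⌋ + 1) with hP
  have hcard : (P.card : ℝ) ≤ 30 * (R * N) := by
    have h1 : (0 : ℤ) ≤ ⌊2 * (R * s)⌋ := Int.floor_nonneg.2 (by positivity)
    have h2 : (0 : ℤ) ≤ ⌊2 * s⌋ := Int.floor_nonneg.2 (by positivity)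
    rw [hP, Finset.card_product, Int.card_Icc, Int.card_Icc]
    have e1 : (((⌊2 * (R * s)⌋ + 1 - -⌊2 * (R * s)⌋).toNat : ℕ) : ℝ) =
        2 * (⌊2 * (R * s)⌋ : ℝ) + 1 := by
      have : (((⌊2 * (R * s)⌋ + 1 - -⌊2 * (R * s)⌋).toNat : ℕ) : ℤ) =
          2 * ⌊2 * (R * s)⌋ + 1 := by omega
      exact_mod_cast this
    have e2 : (((⌊2 * s⌋ + 1 + 1 - -⌊2 * s⌋).toNat : ℕ) : ℝ) = 2 * (⌊2 * s⌋ : ℝ) + 2 := by
      have : (((⌊2 * s⌋ + 1 + 1 - -⌊2 * s⌋).toNat : ℕ) : ℤ) = 2 * ⌊2 * s⌋ + 2 := by omega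
      exact_mod_cast this
    push_cast
    rw [e1, e2]
    have h3 := Int.floor_le (2 * (R * s))
    have h4 := Int.floor_le (2 * s)
    have h5 : 1 ≤ R * s := by nlinarith
    have h1' : (0 : ℝ) ≤ (⌊2 * (R * s)⌋ : ℝ) := by exact_mod_cast h1
    have h2' : (0 : ℝ) ≤ (⌊2 * s⌋ : ℝ) := by exact_mod_cast h2
    calc (2 * (⌊2 * (R * s)⌋ : ℝ) + 1) * (2 * (⌊2 * s⌋ : ℝ) + 2)
        ≤ (5 * (R * s)) * (6 * s) := by
          apply mul_le_mul <;> linarith
      _ = 30 * (R * N) := by rw [← hss]; ring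
  have hmap : ∀ e ∈ E, (C e, A e - ⌊(C e : ℝ) * z.re⌋) ∈ P := by
    intro e he
    have h1 := hsize e he
    have h2 : |(C e : ℝ) * z.im| ≤ 2 * s := by
      apply abs_le_of_sq_le_sq _ (by positivity)
      have : (2 * s) ^ 2 = 4 * N := by rw [mul_pow, hss]; norm_num
      rw [this]
      nlinarith [sq_nonneg ((A e : ℝ) - C e * z.re)]
    have h3 : |(A e : ℝ) - C e * z.re| ≤ 2 * s := by
      apply abs_le_of_sq_le_sq _ (by positivity)
      have : (2 * s) ^ 2 = 4 * N := by rw [mul_pow, hss]; norm_num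
      rw [this]
      nlinarith [sq_nonneg ((C e : ℝ) * z.im)]
    have h4 : |(C e : ℝ)| ≤ 2 * (R * s) := by
      rw [abs_mul] at h2
      have hzi : 0 < z.im := lt_of_lt_of_le (by positivity) hz
      rw [abs_of_pos hzi] at h2
      have h5 : |(C e : ℝ)| * (1 / R) ≤ 2 * s :=
        (mul_le_mul_of_nonneg_left hz (abs_nonneg _)).trans h2
      rw [mul_one_div, div_le_iff₀ hR0] at h5
      linarith
    obtain ⟨h5, h6⟩ := abs_le.1 h4
    obtain ⟨h7, h8⟩ := abs_le.1 h3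
    have h9 := Int.floor_le ((C e : ℝ) * z.re)
    have h10 := Int.lt_floor_add_one ((C e : ℝ) * z.re)
    rw [hP, Finset.mem_product, Finset.mem_Icc, Finset.mem_Icc]
    refine ⟨⟨?_, ?_⟩, ?_, ?_⟩
    · have : -C e ≤ ⌊2 * (R * s)⌋ := Int.le_floor.2 (by push_cast; linarith)
      simp only
      omega
    · exact Int.le_floor.2 h6
    · have : -(A e - ⌊(C e : ℝ) * z.re⌋) ≤ ⌊2 * s⌋ := Int.le_floor.2 (by push_cast; linarith)
      simp only
      omega
    · have : A e - ⌊(C e : ℝ) * z.re⌋ - 1 ≤ ⌊2 * s⌋ := Int.le_floor.2 (by push_cast; linarith)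
      simp only
      omega
  have hfib : ∀ b ∈ P, (E.filter fun e => (C e, A e - ⌊(C e : ℝ) * z.re⌋) = b).card ≤ 2 := by
    intro b _
    rcases (E.filter fun e => (C e, A e - ⌊(C e : ℝ) * z.re⌋) = b).eq_empty_or_nonempty with h0 | h0
    · rw [h0]; simp
    · obtain ⟨e0, he0⟩ := h0
      obtain ⟨he0, hb0⟩ := Finset.mem_filter.1 he0
      have hz0 := card_zero hp (v1 := C e0) (v2 := -2 * A e0) (v3 := -B e0) (by
        rintro ⟨k1, k2, k3⟩
        apply hprim e0 he0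
        refine ⟨k1, ?_, ?_⟩
        · rcases hpp.dvd_or_dvd k2 with h | h
          · exact absurd ((dvd_neg).1 h) hp2'
          · exact h
        · exact (dvd_neg).1 k3)
      refine le_trans (Finset.card_le_card ?_) hz0
      intro e he
      obtain ⟨he, hb⟩ := Finset.mem_filter.1 he
      rw [← hb0, Prod.mk.injEq] at hb
      obtain ⟨hC, hA⟩ := hb
      rw [hC] at hA
      have hA' : A e = A e0 := by linarith
      have hB' : B e = B e0 := by
        have h1 := hell e he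
        have h2 := hell e0 he0
        rw [hC, hA'] at h1
        have h3 : ((B e - B e0 : ℤ) : ℝ) = ell (C e0) (A e0) (B e0) z -
            ell (C e0) (A e0) (B e) z := by
          rw [ell, ell]; push_cast; ring
        have h4 : |((B e - B e0 : ℤ) : ℝ)| < 1 := by
          rw [h3]
          refine (abs_sub _ _).trans_lt ?_
          linarith
        have := int_zero h4
        omega
      rw [Finset.mem_filter, Finset.mem_range]
      refine ⟨hE e he, ?_⟩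
      have h5 := hdvd e he
      rw [hC, hA', hB'] at h5
      have e1 : C e0 * (e : ℤ) ^ 2 - -2 * A e0 * e + -B e0 =
          -(B e0 - 2 * e * A e0 - e ^ 2 * C e0) := by ring
      rw [e1, dvd_neg]
      exact h5
  have h1 := Finset.card_le_mul_card_image_of_maps_to hmap 2 hfib
  have h2 : (E.card : ℝ) ≤ 2 * P.card := by exact_mod_cast h1
  linarith

/-- the choice of the direction -/
theorem pick {p : ℕ} (hp : p.Prime) {R N : ℝ} (hR : 1 ≤ R) (hN : 1 ≤ N)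
    (hpN : 63 * (R * N) < p) {z : ℍ} (hz : ‖(z : ℂ)‖ ≤ R) (hz' : 1 / R ≤ z.im) {S ε : ℝ}
    (hS : 1 ≤ S) (hε : 0 < ε) (hsm : 24 * R ^ 2 * ε * (S ^ 2 * S ^ 2) < 1) :
    ∃ v1 v2 v3 : ℤ, v2 ^ 2 - 4 * v1 * v3 < 0 ∧
      (∀ A B C D : ℤ, 0 < A * D - B * C → ((A * D - B * C : ℤ) : ℝ) ≤ S ^ 2 →
        ‖q C (D - A) (-B) (z : ℂ)‖ ≤ ε * S * z.im →
          ∃ k : ℤ, C = k * v1 ∧ D - A = k * v2 ∧ -B = k * v3) ∧
      ∃ e : ℕ, e < p ∧ ¬ (p : ℤ) ∣ v1 * (e : ℤ) ^ 2 - v2 * e + v3 ∧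
        (∀ C A B : ℤ, ¬ ((p : ℤ) ∣ C ∧ (p : ℤ) ∣ A ∧ (p : ℤ) ∣ B) →
          ((A ^ 2 + B * C : ℤ) : ℝ) ≤ N → |ell C A B z| ≤ ε * S * z.im →
            ¬ (p : ℤ) ∣ B - 2 * e * A - e ^ 2 * C) ∧
        (∀ C A B : ℤ, 0 < A ^ 2 + B * C → ((A ^ 2 + B * C : ℤ) : ℝ) ≤ S ^ 2 →
          |ell C A B z| ≤ ε * S * z.im → (p : ℤ) ∣ A + e * C →
            (p : ℤ) ∣ B - 2 * e * A - e ^ 2 * C → (p : ℤ) ∣ C) := by
  classical
  have hR0 : 0 < R := by linarith
  have hS0 : 0 < S := by linarith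
  have hRN : 1 ≤ R * N := by nlinarith
  have hp63 : (63 : ℝ) < p := by linarith
  have hp63' : 63 < p := by exact_mod_cast hp63
  have hS2 : 1 ≤ S ^ 2 := one_le_pow₀ hS
  have hSS : S ≤ S ^ 2 := by nlinarith
  have hR2 : 1 ≤ R ^ 2 := one_le_pow₀ hR
  have hR2' : R ≤ R ^ 2 := by nlinarith
  have hS4 : S ^ 2 ≤ S ^ 2 * S ^ 2 := by nlinarith
  have hεb : 24 * R ^ 2 * (ε * S) < 1 := by
    refine lt_of_le_of_lt ?_ hsm
    have : ε * S ≤ ε * (S ^ 2 * S ^ 2) := by gcongr; linarith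
    nlinarith
  have hε2 : ε ≤ 1 / 2 := by
    have : ε ≤ ε * S := by nlinarith
    nlinarith
  have hzi := z.im_pos
  have hziR : z.im ≤ R := by
    have := Complex.abs_im_le_norm (z : ℂ)
    rw [UpperHalfPlane.coe_im] at this
    exact (le_abs_self _).trans (this.trans hz)
  obtain ⟨v1, v2, v3, x, y, t, hbez, hneg, hform⟩ := SN.exists_form hR hz hz' (S := S ^ 2)
    (ε := 4 * ε) hS2 (by positivity) (by
      have : 6 * R ^ 2 * (4 * ε) * (S ^ 2 * S ^ 2) = 24 * R ^ 2 * ε * (S ^ 2 * S ^ 2) := by ring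
      rw [this]; exact hsm)
  refine ⟨v1, v2, v3, hneg, fun A B C D h1 h2 h3 => hform A B C D h1 ?_ ?_, ?_⟩
  · refine h2.trans ?_
    nlinarith
  · refine h3.trans ?_
    have : ε * S ≤ 4 * ε * S ^ 2 := by nlinarith
    gcongr
  -- the three bad sets
  set E1 := (Finset.range p).filter fun e : ℕ => (p : ℤ) ∣ v1 * (e : ℤ) ^ 2 - v2 * e + v3 with hE1
  set E2 := (Finset.range p).filter fun e : ℕ => ∃ C A B : ℤ,
    ¬ ((p : ℤ) ∣ C ∧ (p : ℤ) ∣ A ∧ (p : ℤ) ∣ B) ∧ ((A ^ 2 + B * C : ℤ) : ℝ) ≤ N ∧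
      |ell C A B z| ≤ ε * S * z.im ∧ (p : ℤ) ∣ B - 2 * e * A - e ^ 2 * C with hE2
  set E3 := (Finset.range p).filter fun e : ℕ =>
    ¬ (p : ℤ) ∣ v1 * (e : ℤ) ^ 2 - v2 * e + v3 ∧ ∃ C A B : ℤ, 0 < A ^ 2 + B * C ∧
      ((A ^ 2 + B * C : ℤ) : ℝ) ≤ S ^ 2 ∧ |ell C A B z| ≤ ε * S * z.im ∧ (p : ℤ) ∣ A + e * C ∧
        (p : ℤ) ∣ B - 2 * e * A - e ^ 2 * C ∧ ¬ (p : ℤ) ∣ C with hE3
  have c1 : E1.card ≤ 2 := by
    refine card_zero hp ?_
    rintro ⟨k1, k2, k3⟩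
    have h1 : (p : ℤ) ∣ 1 := by
      rw [← hbez]
      exact dvd_add (dvd_add (k1.mul_right _) (k2.mul_right _)) (k3.mul_right _)
    have h2 : p ∣ 1 := by exact_mod_cast h1
    have := Nat.le_of_dvd one_pos h2
    omega
  have hηz : ε * S * z.im < 1 / 2 := by
    have h1 : ε * S * z.im ≤ ε * S * R ^ 2 := by
      gcongr
      exact hziR.trans hR2'
    nlinarith
  have c2 : (E2.card : ℝ) ≤ 60 * (R * N) := by
    refine card_small hp (by omega) hR hN (z := (z : ℂ)) hz' hηz E2 (fun e he => ?_) (fun e he => ?_)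
    · exact Finset.mem_range.1 (Finset.mem_filter.1 he).1
    · obtain ⟨C, A, B, k1, k2, k3, k4⟩ := (Finset.mem_filter.1 he).2
      refine ⟨C, A, B, k1, ?_, k3, k4⟩
      have hsN : (Real.sqrt N) ^ 2 = N := Real.sq_sqrt (by linarith)
      -- the size
      push_cast at k2
      set M2 : ℝ := ((A : ℝ) - C * (z : ℂ).re) ^ 2 + (C * (z : ℂ).im) ^ 2 with hM2
      have e1 : M2 = (A ^ 2 + B * C) + C * ell C A B z := by
        rw [hM2, ell]; ring
      have h0 : 0 ≤ M2 := by rw [hM2]; positivity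
      set M := Real.sqrt M2 with hM
      have hMM : M ^ 2 = M2 := Real.sq_sqrt h0
      have hM0 : 0 ≤ M := Real.sqrt_nonneg _
      have h2 : |(C : ℝ)| * z.im ≤ M := by
        apply Real.le_sqrt_of_sq_le
        rw [mul_pow, sq_abs, hM2]
        have : (C : ℝ) ^ 2 * z.im ^ 2 = (C * (z : ℂ).im) ^ 2 := by
          rw [UpperHalfPlane.coe_im]; ring
        rw [this]
        nlinarith [sq_nonneg ((A : ℝ) - C * (z : ℂ).re)]
      have h3 : C * ell C A B z ≤ 1 / 2 * M := by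
        have hεS : ε * S ≤ 1 / 2 := by nlinarith
        calc C * ell C A B z ≤ |C * ell C A B z| := le_abs_self _
          _ = |(C : ℝ)| * |ell C A B z| := abs_mul _ _
          _ ≤ |(C : ℝ)| * (ε * S * z.im) := by gcongr
          _ = ε * S * (|(C : ℝ)| * z.im) := by ring
          _ ≤ 1 / 2 * M := by gcongr
      have h4 : M ^ 2 ≤ N + 1 / 2 * M := by rw [hMM, e1]; linarith
      rw [← hMM]
      by_contra hcon
      rw [not_le] at hcon
      nlinarith [sq_nonneg (M - 1)]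
  have c3 : E3.card ≤ 1 := by
    rw [Finset.card_le_one]
    intro e he e' he'
    obtain ⟨her, hv, C, A, B, k1, k2, k3, k4, k5, k6⟩ := Finset.mem_filter.1 he
    obtain ⟨her', hv', C', A', B', l1, l2, l3, l4, l5, l6⟩ := Finset.mem_filter.1 he'
    rw [Finset.mem_range] at her her'
    by_contra hne
    apply hv
    have hee : ¬ (p : ℤ) ∣ (e : ℤ) - e' := by
      intro hdv
      have h1 : (e' : ℤ) ≡ e [ZMOD p] := (Int.modEq_iff_dvd).2 hdv
      have h2 : e' % p = e % p := Int.natCast_modEq_iff.1 h1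
      rw [Nat.mod_eq_of_lt her, Nat.mod_eq_of_lt her'] at h2
      exact hne h2.symm
    have hcr := cross (z := (z : ℂ)) hzi hε hε2 hS0 k2 k3 l2 l3
    obtain ⟨k, g1, g2, g3⟩ := hform (A * A' + B * C') (A * B' - B * A') (C * A' - A * C')
      (C * B' + A * A') (by
        have : (A * A' + B * C') * (C * B' + A * A') - (A * B' - B * A') * (C * A' - A * C') =
            (A ^ 2 + B * C) * (A' ^ 2 + B' * C') := by ring
        rw [this]
        positivity) (by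
        have : (A * A' + B * C') * (C * B' + A * A') - (A * B' - B * A') * (C * A' - A * C') =
            (A ^ 2 + B * C) * (A' ^ 2 + B' * C') := by ring
        rw [this]
        push_cast at k2 l2 ⊢
        have h1 : (0 : ℝ) < (A : ℝ) ^ 2 + B * C := by exact_mod_cast k1
        have h2 : (0 : ℝ) < (A' : ℝ) ^ 2 + B' * C' := by exact_mod_cast l1
        calc ((A : ℝ) ^ 2 + B * C) * ((A' : ℝ) ^ 2 + B' * C') ≤ S ^ 2 * S ^ 2 := by gcongr
          _ = (S ^ 2) ^ 2 := by ring) (by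
        have e1 : (C * B' + A * A') - (A * A' + B * C') = C * B' - B * C' := by ring
        have e2 : -(A * B' - B * A') = B * A' - A * B' := by ring
        rw [e1, e2]
        refine hcr.trans (le_of_eq ?_)
        rw [UpperHalfPlane.coe_im])
    exact double hp hee k6 l6 k4 k5 l4 l5 (k := k) (by linarith) (by linarith) (by linarith)
  have hbad : ∃ e ∈ Finset.range p, e ∉ E1 ∪ E2 ∪ E3 := by
    by_contra hcon
    push Not at hcon
    have h1 : (Finset.range p).card ≤ (E1 ∪ E2 ∪ E3).card := Finset.card_le_card hcon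
    rw [Finset.card_range] at h1
    have h2 : (E1 ∪ E2 ∪ E3).card ≤ E1.card + E2.card + E3.card :=
      (Finset.card_union_le _ _).trans (Nat.add_le_add_right (Finset.card_union_le _ _) _)
    have h3 : p ≤ 2 + E2.card + 1 := by omega
    have h4 : (p : ℝ) ≤ 2 + E2.card + 1 := by exact_mod_cast h3
    linarith
  obtain ⟨e, he, hnot⟩ := hbad
  rw [Finset.mem_union, Finset.mem_union] at hnot
  push Not at hnot
  obtain ⟨⟨n1, n2⟩, n3⟩ := hnot
  have hv : ¬ (p : ℤ) ∣ v1 * (e : ℤ) ^ 2 - v2 * e + v3 := fun h =>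
    n1 (Finset.mem_filter.2 ⟨he, h⟩)
  refine ⟨e, Finset.mem_range.1 he, hv, ?_, ?_⟩
  · intro C A B k1 k2 k3 k4
    exact n2 (Finset.mem_filter.2 ⟨he, C, A, B, k1, k2, k3, k4⟩)
  · intro C A B k1 k2 k3 k4 k5
    by_contra k6
    exact n3 (Finset.mem_filter.2 ⟨he, hv, C, A, B, k1, k2, k3, k4, k5, k6⟩)

end Pool.Agent.D0H35.SN2
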