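import Pool.Agent.D0H35.SN.Fin
import Pool.Agent.D0H35.SN2.Pick

/-!
Large values without Hecke returns of either orientation.
-/

set_option autoImplicit false

open UpperHalfPlane

namespace Pool.Agent.D0H35.SN2

open Pool.Agent.N661.SN
open Pool.Agent.N889.SN (Per)

/-- vectors at `z` of a reflection at `(z + b) / d`: the arithmetic contradiction -/
theorem contra {p : ℕ} (hp : p.Prime) {N : ℝ} {z : ℍ} {S ε : ℝ} {e b : ℕ} {d : ℤ}
    (hd : d = p ∨ d = (p : ℤ) ^ 2) (hbe : b % p = e)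
    (hb2 : ∀ C A B : ℤ, ¬ ((p : ℤ) ∣ C ∧ (p : ℤ) ∣ A ∧ (p : ℤ) ∣ B) →
      ((A ^ 2 + B * C : ℤ) : ℝ) ≤ N → |ell C A B z| ≤ ε * S * z.im →
        ¬ (p : ℤ) ∣ B - 2 * e * A - e ^ 2 * C)
    (hb3 : ∀ C A B : ℤ, 0 < A ^ 2 + B * C → ((A ^ 2 + B * C : ℤ) : ℝ) ≤ S ^ 2 →
      |ell C A B z| ≤ ε * S * z.im → (p : ℤ) ∣ A + e * C →
        (p : ℤ) ∣ B - 2 * e * A - e ^ 2 * C → (p : ℤ) ∣ C)
    {A B C : ℤ} (hn : 0 < A ^ 2 + B * C) (hnN : ((A ^ 2 + B * C : ℤ) : ℝ) ≤ N)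
    (hnp : A ^ 2 + B * C < (p : ℤ) ^ 2)
    (hS : ((d ^ 2 * (A ^ 2 + B * C) : ℤ) : ℝ) ≤ S ^ 2)
    (hl : |ell C (d * A - b * C) (d ^ 2 * B + 2 * b * d * A - b ^ 2 * C) z| ≤ ε * S * z.im) :
    False := by
  have hp0 : (0 : ℤ) < p := by exact_mod_cast hp.pos
  have hd0 : 0 < d := by rcases hd with rfl | rfl <;> positivity
  have hbe' : ∃ m : ℤ, (b : ℤ) = e + p * m := by
    refine ⟨((b / p : ℕ) : ℤ), ?_⟩
    have := Nat.mod_add_div b p
    rw [hbe] at this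
    exact_mod_cast this.symm
  obtain ⟨m, hm⟩ := hbe'
  have hdet1 : (d * A - b * C) ^ 2 + (d ^ 2 * B + 2 * b * d * A - b ^ 2 * C) * C =
      d ^ 2 * (A ^ 2 + B * C) := by ring
  obtain ⟨k, u1, u2, u3, x, y, t, hk, h1, h2, h3, hbez⟩ := bezout3 (v1 := C)
    (v2 := d * A - b * C) (v3 := d ^ 2 * B + 2 * b * d * A - b ^ 2 * C) (by
      rintro ⟨a1, a2, a3⟩
      have h0 : 0 < d ^ 2 * (A ^ 2 + B * C) := by positivity
      rw [← hdet1, a2, a3] at h0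
      simp at h0)
  have hprim : ¬ ((p : ℤ) ∣ u1 ∧ (p : ℤ) ∣ u2 ∧ (p : ℤ) ∣ u3) := by
    rintro ⟨k1, k2, k3⟩
    have h1 : (p : ℤ) ∣ 1 := by
      rw [← hbez]
      exact dvd_add (dvd_add (k1.mul_right _) (k2.mul_right _)) (k3.mul_right _)
    have h2 : p ∣ 1 := by exact_mod_cast h1
    exact hp.one_lt.ne' (Nat.dvd_one.1 h2)
  obtain ⟨hdv, hor⟩ := refl hp hd hn hnp h1 h2 h3
  have hk1 : (1 : ℤ) ≤ |k| := Int.one_le_abs hk
  have hk2 : (1 : ℤ) ≤ k ^ 2 := by rw [← sq_abs]; nlinarith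
  have hΔ : d ^ 2 * (A ^ 2 + B * C) = k ^ 2 * (u2 ^ 2 + u3 * u1) := by
    rw [← hdet1, h2, h3]
    conv_lhs => rw [h1]
    ring
  have hΔ0 : 0 < u2 ^ 2 + u3 * u1 := by
    have h4 : 0 < k ^ 2 * (u2 ^ 2 + u3 * u1) := by rw [← hΔ]; positivity
    by_contra hcon
    rw [not_lt] at hcon
    have := mul_nonpos_of_nonneg_of_nonpos (sq_nonneg k) hcon
    linarith
  have hell : |ell u1 u2 u3 z| ≤ ε * S * z.im := by
    refine le_trans ?_ hl
    have e1 : ell C (d * A - b * C) (d ^ 2 * B + 2 * b * d * A - b ^ 2 * C) z =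
        k * ell u1 u2 u3 z := by
      rw [h3, h2]
      conv_lhs => rw [h1]
      rw [ell, ell]
      push_cast
      ring
    rw [e1, abs_mul]
    have h4 : (1 : ℝ) ≤ |(k : ℝ)| := by exact_mod_cast hk1
    have h5 := abs_nonneg (ell u1 u2 u3 z)
    nlinarith
  have hdv' : (p : ℤ) ∣ u3 - 2 * e * u2 - e ^ 2 * u1 := by
    have e1 : u3 - 2 * b * u2 - b ^ 2 * u1 = (u3 - 2 * e * u2 - e ^ 2 * u1) +
        p * (-2 * m * u2 - (2 * e * m + p * m ^ 2) * u1) := by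
      rw [hm]; ring
    rw [e1] at hdv
    exact (dvd_add_left (dvd_mul_right _ _)).1 hdv
  rcases hor with hor | ⟨k', hk', hor⟩
  · have hor' : (p : ℤ) ∣ u2 + e * u1 := by
      have e1 : u2 + b * u1 = (u2 + e * u1) + p * (m * u1) := by rw [hm]; ring
      rw [e1] at hor
      exact (dvd_add_left (dvd_mul_right _ _)).1 hor
    have h4 := hb3 u1 u2 u3 hΔ0 (by
      refine le_trans ?_ hS
      rw [hΔ]
      have : u2 ^ 2 + u3 * u1 ≤ k ^ 2 * (u2 ^ 2 + u3 * u1) := by nlinarith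
      exact_mod_cast this) hell hor' hdv'
    have h5 : (p : ℤ) ∣ u2 := (dvd_add_left (h4.mul_left _)).1 hor'
    have h6 : (p : ℤ) ∣ u3 := by
      have e1 : u3 = (u3 - 2 * e * u2 - e ^ 2 * u1) + (2 * e * u2 + e ^ 2 * u1) := by ring
      rw [e1]
      exact dvd_add hdv' (dvd_add (h5.mul_left _) (h4.mul_left _))
    exact hprim ⟨h4, h5, h6⟩
  · refine hb2 u1 u2 u3 hprim ?_ hell hdv'
    refine le_trans ?_ hnN
    rw [hor]
    have hk3 : (1 : ℤ) ≤ k' ^ 2 := by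
      have := Int.one_le_abs hk'
      rw [← sq_abs]; nlinarith
    have : u2 ^ 2 + u3 * u1 ≤ k' ^ 2 * (u2 ^ 2 + u3 * u1) := by nlinarith
    exact_mod_cast this

theorem off {U : ℂ → ℂ} (hU : Per (fun p => (p : ℝ) + 1) U) {R : ℝ} (hR : 1 ≤ R) {N : ℕ}
    (hN : 1 ≤ N) {z : ℍ} (hz : ‖(z : ℂ)‖ ≤ R) (hz' : 1 / R ≤ z.im) :
    ∃ (w : ℍ) (b d : ℕ), b < d ∧ (d : ℝ) ≤ 2 ^ 14 * (R * N) ^ 2 ∧ (w : ℂ) = ((z : ℂ) + b) / d ∧
      ‖U z‖ ≤ 2 ^ 9 * (R * N) * ‖U w‖ ∧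
      (∀ A B C D : ℤ, 0 < A * D - B * C → A * D - B * C ≤ N → ¬ (B = 0 ∧ C = 0 ∧ A = D) →
        ∀ w' : ℍ, (w' : ℂ) * (C * (w : ℂ) + D) = A * (w : ℂ) + B →
          1 / (2 ^ 63 * (R * N) ^ 10) ≤ dist w' w) ∧
      (∀ A B C D : ℤ, A * D - B * C < 0 → -(A * D - B * C) ≤ N →
        ∀ w' : ℍ, (w' : ℂ) * (C * (starRingEnd ℂ) (w : ℂ) + D) =
          A * (starRingEnd ℂ) (w : ℂ) + B → 1 / (2 ^ 63 * (R * N) ^ 10) ≤ dist w' w) := by
  have hR0 : 0 < R := by linarith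
  have hN' : (1 : ℝ) ≤ N := by exact_mod_cast hN
  set Q : ℝ := R * N with hQ
  have hQ1 : 1 ≤ Q := by rw [hQ]; nlinarith
  have hQ0 : 0 < Q := by linarith
  have hNQ : (N : ℝ) ≤ Q := by rw [hQ]; nlinarith
  -- the prime
  have hceil : 63 * Q ≤ ⌈63 * Q⌉₊ := Nat.le_ceil _
  have hceil' : (⌈63 * Q⌉₊ : ℝ) < 63 * Q + 1 := Nat.ceil_lt_add_one (by positivity)
  have hn0 : ⌈63 * Q⌉₊ ≠ 0 := by
    have : (0 : ℝ) < ⌈63 * Q⌉₊ := by linarith
    exact_mod_cast this.ne'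
  obtain ⟨p, hp, hp1, hp2⟩ := Nat.exists_prime_lt_and_le_two_mul _ hn0
  have hp1' : (⌈63 * Q⌉₊ : ℝ) < p := by exact_mod_cast hp1
  have hp2' : (p : ℝ) ≤ 2 * ⌈63 * Q⌉₊ := by exact_mod_cast hp2
  have hpQ : 63 * Q < p := by linarith
  have hpQ' : (p : ℝ) ≤ 128 * Q := by linarith
  have hp0 : (0 : ℝ) < p := by linarith
  have hp0z : (0 : ℤ) < p := by exact_mod_cast hp.pos
  have hN2p : (N : ℝ) < p := by linarith
  have hN2p' : (N : ℤ) < p := by exact_mod_cast hN2p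
  set S : ℝ := Real.sqrt N * (p : ℝ) ^ 2 with hS
  have hsN : (Real.sqrt N) ^ 2 = N := Real.sq_sqrt (by linarith)
  have hsN1 : 1 ≤ Real.sqrt N := Real.one_le_sqrt.2 hN'
  have hS2 : S ^ 2 = N * (p : ℝ) ^ 4 := by rw [hS, mul_pow, hsN]; ring
  have hS1 : 1 ≤ S := by
    have : (1 : ℝ) ≤ (p : ℝ) ^ 2 := one_le_pow₀ (by linarith)
    rw [hS]; nlinarith
  have hS0 : 0 < S := by linarith
  set ε : ℝ := 1 / (2 ^ 61 * Q ^ 10) with hε
  have hε0 : 0 < ε := by positivity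
  have hδε : 1 / (2 ^ 63 * Q ^ 10) = ε / 4 := by
    rw [hε]; field_simp; norm_num
  have hsm : 24 * R ^ 2 * ε * (S ^ 2 * S ^ 2) < 1 := by
    have h1 : (p : ℝ) ^ 8 ≤ (128 * Q) ^ 8 := by gcongr
    have h2 : R ^ 2 * (S ^ 2 * S ^ 2) = Q ^ 2 * (p : ℝ) ^ 8 := by rw [hS2, hQ]; ring
    have h3 : R ^ 2 * (S ^ 2 * S ^ 2) ≤ Q ^ 2 * (128 * Q) ^ 8 := by
      rw [h2]; gcongr
    calc 24 * R ^ 2 * ε * (S ^ 2 * S ^ 2) = 24 * ε * (R ^ 2 * (S ^ 2 * S ^ 2)) := by ring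
      _ ≤ 24 * ε * (Q ^ 2 * (128 * Q) ^ 8) := by gcongr
      _ = 3 / 4 := by rw [hε]; field_simp; norm_num
      _ < 1 := by norm_num
  have hεS : ε * S < 1 := by
    have h1 : S ≤ S ^ 2 := by nlinarith
    have h2 : 1 ≤ S ^ 2 := by nlinarith
    have h3 : S ≤ S ^ 2 * S ^ 2 := by nlinarith
    have h4 : ε * S ≤ ε * (S ^ 2 * S ^ 2) := by gcongr
    have h5 : 1 ≤ R ^ 2 := one_le_pow₀ hR
    have h6 : 0 < ε * (S ^ 2 * S ^ 2) := by positivity
    nlinarith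
  have hε1 : ε ≤ 1 := by
    have : ε ≤ ε * S := by nlinarith
    linarith
  obtain ⟨v1, v2, v3, hneg, hform, e, hep, hve, hb2, hb3⟩ := pick hp hR hN' hpQ hz hz' hS1 hε0 hsm
  obtain ⟨b, d, hd, hbd, hbe, hle⟩ := SN.star hU hp (z := (z : ℂ)) z.im_pos hep
  have hd0 : 0 < d := lt_of_le_of_lt (Nat.zero_le _) hbd
  have hdr : (0 : ℝ) < d := by exact_mod_cast hd0
  have hdc : (d : ℂ) ≠ 0 := by exact_mod_cast hd0.ne'
  have hdp2 : (d : ℝ) ≤ (p : ℝ) ^ 2 := by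
    rcases hd with rfl | rfl
    · nlinarith
    · push_cast; exact le_rfl
  have hdz : (d : ℤ) = p ∨ (d : ℤ) = (p : ℤ) ^ 2 := by
    rcases hd with rfl | rfl
    · left; rfl
    · right; push_cast; ring
  have him : 0 < (((z : ℂ) + b) / d).im := by
    have : (((z : ℂ) + b) / d).im = z.im / d := by
      rw [show (d : ℂ) = ((d : ℝ) : ℂ) by norm_cast, Complex.div_ofReal_im]
      simp
    rw [this]
    have := z.im_pos
    positivity
  set w : ℍ := ⟨((z : ℂ) + b) / d, him⟩ with hw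
  have hwc : (w : ℂ) = ((z : ℂ) + b) / d := rfl
  have hzw : (z : ℂ) = (d : ℂ) * w - b := by
    rw [hwc]; field_simp; ring
  -- transfer of the second point
  have tr : ∀ w' : ℍ, ∃ z' : ℍ, (z' : ℂ) = (d : ℂ) * w' - b ∧ dist z' z = dist w' w := by
    intro w'
    have him' : 0 < ((d : ℂ) * w' - b).im := by
      have : ((d : ℂ) * w' - b).im = d * w'.im := by simp
      rw [this]
      exact mul_pos hdr w'.im_pos
    refine ⟨⟨(d : ℂ) * w' - b, him'⟩, rfl, ?_⟩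
    exact SN.dist_aff (d := (d : ℝ)) (b := (b : ℝ)) hdr (u := w') (v := w) (u' := ⟨_, him'⟩) (v' := z)
      (by push_cast; rfl) (by rw [hzw]; push_cast; rfl)
  have hd4 : ∀ n : ℤ, 0 ≤ n → n ≤ N → (((d : ℤ) ^ 2 * n : ℤ) : ℝ) ≤ S ^ 2 := by
    intro n hn0 hn
    have h1 : (n : ℝ) ≤ N := by exact_mod_cast hn
    have h0 : (0 : ℝ) ≤ n := by exact_mod_cast hn0
    rw [hS2]
    push_cast
    calc (d : ℝ) ^ 2 * n ≤ ((p : ℝ) ^ 2) ^ 2 * N := by gcongr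
      _ = _ := by ring
  refine ⟨w, b, d, hbd, ?_, hwc, ?_, ?_, ?_⟩
  · refine hdp2.trans ?_
    calc (p : ℝ) ^ 2 ≤ (128 * Q) ^ 2 := by gcongr
      _ = 2 ^ 14 * Q ^ 2 := by ring
  · refine hle.trans ?_
    have : 2 * (p : ℝ) + 1 ≤ 2 ^ 9 * Q := by linarith
    gcongr
  · intro A B C D h1 h2 h3 w' hw'
    by_contra hcon
    rw [not_le, hδε] at hcon
    obtain ⟨z', hz'c, hdist⟩ := tr w'
    have hdet : (d * A - b * C) * (C * b + D * d) - (d * (A * b + B * d) - b * (C * b + D * d)) * C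
        = (d : ℤ) ^ 2 * (A * D - B * C) := by ring
    have hnear := near_le (w := z) (w' := z') (A := d * A - b * C)
      (B := d * (A * b + B * d) - b * (C * b + D * d)) (C := C) (D := C * b + D * d)
      (δ := ε / 4) (ε := ε) (s := S) (by linarith) hε0 (by nlinarith [sq_nonneg ε]) hS0.le
      (by rw [hdet]; positivity) (by rw [hdet]; exact hd4 _ h1.le h2) (by
        have e1 : (z : ℂ) = (d : ℂ) * w - b := hzw
        rw [hz'c, e1]
        push_cast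
        linear_combination (d : ℂ) ^ 2 * hw') (by rw [hdist]; exact hcon)
    obtain ⟨k, k1, k2, k3⟩ := hform _ _ _ _ (by rw [hdet]; positivity)
      (by rw [hdet]; exact hd4 _ h1.le h2) hnear
    apply h3
    refine hol hp hdz hneg (b := (b : ℤ)) ?_ ?_ k1 k2 k3
    · rw [SN.form_congr, hbe]
      exact hve
    · nlinarith
  · intro A B C D h1 h2 w' hw'
    by_contra hcon
    rw [not_le, hδε] at hcon
    obtain ⟨z', hz'c, hdist⟩ := tr w'
    have hdet : (d * A - b * C) * (C * b + D * d) - (d * (A * b + B * d) - b * (C * b + D * d)) * C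
        = (d : ℤ) ^ 2 * (A * D - B * C) := by ring
    have hd2 : (0 : ℤ) < (d : ℤ) ^ 2 := by positivity
    have hneg' : (d : ℤ) ^ 2 * (A * D - B * C) < 0 := mul_neg_of_pos_of_neg hd2 h1
    obtain ⟨g1, g2⟩ := refl_vec (w := z) (w' := z') (A := d * A - b * C)
      (B := d * (A * b + B * d) - b * (C * b + D * d)) (C := C) (D := C * b + D * d)
      (δ := ε / 4) (ε := ε) (S := S) (by linarith) hε0 (by nlinarith [sq_nonneg ε]) hS0.le hεS
      (by rw [hdet]; exact hneg') (by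
        rw [hdet]
        have := hd4 (-(A * D - B * C)) (by omega) h2
        have e1 : (d : ℤ) ^ 2 * (-(A * D - B * C)) = -((d : ℤ) ^ 2 * (A * D - B * C)) := by ring
        rw [e1] at this
        exact this) (by
        have e1 : (starRingEnd ℂ) (z : ℂ) = (d : ℂ) * (starRingEnd ℂ) (w : ℂ) - b := by
          rw [hzw]; simp
        rw [hz'c, e1]
        push_cast
        linear_combination (d : ℂ) ^ 2 * hw') (by rw [hdist]; exact hcon)
    have hDA : D = -A := by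
      have : (d : ℤ) * (D + A) = 0 := by linear_combination g1
      rcases mul_eq_zero.1 this with h | h
      · exact absurd h (by positivity)
      · omega
    subst hDA
    have hdet2 : A * -A - B * C = -(A ^ 2 + B * C) := by ring
    rw [hdet2] at h1 h2
    have eB : (d : ℤ) * (A * b + B * d) - b * (C * b + -A * d) =
        (d : ℤ) ^ 2 * B + 2 * b * d * A - b ^ 2 * C := by ring
    rw [eB] at g2
    have hpos : 0 < A ^ 2 + B * C := by omega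
    have hleN : A ^ 2 + B * C ≤ N := by omega
    exact contra hp hdz hbe hb2 hb3 hpos (by exact_mod_cast hleN) (by nlinarith)
      (hd4 _ hpos.le hleN) g2

end Pool.Agent.D0H35.SN2
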